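import Pool.Agent.Helper93.BP.Gen

/-!
# Pairwise tangent homothets of an arbitrary convex body whose sizes are nearly equal
# (possibly after weighting with an affine function)

Let `K ⊂ ℝ^d` be any convex body, `o ∈ K`, let `x_i + c_i K`, `c_i > 0`, be pairwise tangent, and let
`z_i = x_i + c_i o`. Let `A = φ + a` be an affine function on `ℝ^d` which is positive at all `z_i`. If the numbers
`c_i / A (z_i)` are within a factor `R < 2` of each other, then `n (2 - R) ^ d ≤ 2 ^ d`. For `A = 1` the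
hypothesis is `c_i ≤ R c_j` for all `i, j`. In particular `n ≤ 2 ^ d` if `(2 ^ d + 1) (2 - R) ^ d > 2 ^ d`.

Proof. Let `o = 0` and let `q_i = (x_i, 1) / c_i` in `ℝ^{d+1}`. A hyperplane which separates the members `i ≠ j`
gives a linear functional `G_ij` and `α, β ≥ 0`, `α + β > 0`, with `G_ij (q_i) = -α`, `G_ij (q_j) = β` and
`-α ≤ G_ij (q_k) ≤ β` for all `k`. Let `P` be the intersection of the slabs `-α ≤ G_ij ≤ β` (and of a big
ball), `P_s` its section at the height `s` with respect to `ℓ (y, τ) = φ (y) + a τ`, `τ_k = ℓ (q_k)` and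
`t = min τ_k`. As `0 ∈ P`, the section `P_{2t - τ_k}` contains `(2 - τ_k / t) P_t ⊃ (2 - R) P_t` up to a
translation, so the sets `(q_k + P_{2t - τ_k}) / 2 ⊂ P_t`, which are pairwise separated by
hyperplanes, have at least the volume `((2 - R) / 2) ^ d vol (P_t)`, and `vol (P_t) > 0`.
-/

set_option autoImplicit false

namespace Pool.Agent.Results.MP_c1e66d_co.NearlyEqualSizes

/-- Let `K ⊂ ℝ^d` be a convex body, `o ∈ K`, let `x_i + c_i K` (`i < n`, `c_i > 0`) be pairwise tangent, let
`A = φ + a` be an affine function which is positive at all the points `z_i = x_i + c_i o`, and let `R < 2`. If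
`c_i / A (z_i) ≤ R c_j / A (z_j)` for all `i, j`, then `n (2 - R) ^ d ≤ 2 ^ d`. -/
theorem result : ∀ d : ℕ, ∀ K : Set (EuclideanSpace ℝ (Fin d)),
    Convex ℝ K → IsCompact K → (interior K).Nonempty →
    ∀ o ∈ K,
    ∀ n : ℕ, ∀ c : Fin n → ℝ, ∀ x : Fin n → EuclideanSpace ℝ (Fin d),
      (∀ i, 0 < c i) →
      (∀ i j, i ≠ j →
        ((fun y => x i + c i • y) '' K ∩ (fun y => x j + c j • y) '' K).Nonempty ∧
        interior ((fun y => x i + c i • y) '' K) ∩
          interior ((fun y => x j + c j • y) '' K) = ∅) →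
      ∀ (φ : EuclideanSpace ℝ (Fin d) →ₗ[ℝ] ℝ) (a : ℝ),
      (∀ i, 0 < φ (x i + c i • o) + a) →
      ∀ R : ℝ, R < 2 →
      (∀ i j, c i * (φ (x j + c j • o) + a) ≤ R * (c j * (φ (x i + c i • o) + a))) →
      (n : ℝ) * (2 - R) ^ d ≤ 2 ^ d := by
  intro d K hK hKc hKi o ho n c x hc hpair φ a hφ R hR hφR
  have := Pool.Agent.Helper93.BP.boundG hK hKc hKi o ho c x hc hpair φ a hφ R hR hφR
  rwa [finrank_euclideanSpace_fin] at this

end Pool.Agent.Results.MP_c1e66d_co.NearlyEqualSizes
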