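import Pool.Agent.Helper93.BP.Ratio

/-!
# Pairwise tangent homothets of a centrally symmetric body: the bound `2 ^ d` if the sizes are
# within a factor of three (possibly after weighting with an affine function of the centre)

Let `K ⊂ ℝ^d` be a convex body with `2 o - K = K` and let `x_i + c_i K`, `c_i > 0`, be pairwise tangent, with the
centres `z_i = x_i + c_i o`. Let `A = φ + a` be an affine function on `ℝ^d` which is positive at all the centres. If
the numbers `c_i / A (z_i)` are within a factor `R ≥ 3` of each other, then `n (R + 1) ^ d ≤ (3 R - 1) ^ d`. For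
`R = 3` this is the conjectured bound `n ≤ 2 ^ d`. For `A = 1` the hypothesis is `c_i ≤ R c_j` for all `i, j`.

Proof. Let `o = 0` and let `q_i = (x_i, 1) / c_i` in `ℝ^{d+1}`. For `i ≠ j` a hyperplane separates the two members;
all the other members touch both, so all the points `± q_k` lie in a slab `|G_ij| ≤ 1`, where
`G_ij (q_i) = -1` and `G_ij (q_j) = 1`. Let `Q` be the intersection of these slabs (and of a big ball) and let
`Q_s` be the section of `Q` at height `s` with respect to the linear functional `ℓ (y, τ) = φ (y) + a τ`,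
`τ_k = ℓ (q_k) = A (z_k) / c_k > 0`. For each `t` the sets `(q_k + Q_{2t - τ_k}) / 2 ⊂ Q_t` are separated by the
hyperplanes `G_ij = 0`, so `∑_k vol (Q_{2t - τ_k}) ≤ 2 ^ d vol (Q_t)`. Let `T` be the largest `τ_k`,
`t = (1 + 1/R) T / 4` and `σ = (1 - 1/R) T / 2 ≥ t`. Then `|2t - τ_k| ≤ σ` for all `k`, hence
`vol (Q_{2t - τ_k}) ≥ vol (Q_σ)` by the symmetry of `Q` and Brunn's theorem, and
`vol (Q_σ) ≥ (2 (R + 1) / (3 R - 1)) ^ d vol (Q_t)`, as `Q` contains the cone over `Q_t` with an apex `q_k` of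
height `T` (for `R = 3` one has `t = σ = T / 3`).
-/

set_option autoImplicit false

namespace Pool.Agent.Results.MP_c1e66d_co.SymmetricBoundedRatio

/-- Let `K ⊂ ℝ^d` be a convex body which is symmetric about the point `o`, let `x_i + c_i K` (`i < n`, `c_i > 0`) be
pairwise tangent, let `A = φ + a` be an affine function which is positive at all the centres
`z_i = x_i + c_i o`, and let `R ≥ 3`. If `c_i / A (z_i) ≤ R c_j / A (z_j)` for all `i, j`, then
`n (R + 1) ^ d ≤ (3 R - 1) ^ d`; for `R = 3` this says `n ≤ 2 ^ d`. -/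
theorem result : ∀ d : ℕ, ∀ K : Set (EuclideanSpace ℝ (Fin d)),
    Convex ℝ K → IsCompact K → (interior K).Nonempty →
    ∀ o : EuclideanSpace ℝ (Fin d), (∀ y ∈ K, (2 : ℝ) • o - y ∈ K) →
    ∀ n : ℕ, ∀ c : Fin n → ℝ, ∀ x : Fin n → EuclideanSpace ℝ (Fin d),
      (∀ i, 0 < c i) →
      (∀ i j, i ≠ j →
        ((fun y => x i + c i • y) '' K ∩ (fun y => x j + c j • y) '' K).Nonempty ∧
        interior ((fun y => x i + c i • y) '' K) ∩
          interior ((fun y => x j + c j • y) '' K) = ∅) →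
      ∀ (φ : EuclideanSpace ℝ (Fin d) →ₗ[ℝ] ℝ) (a : ℝ),
      (∀ i, 0 < φ (x i + c i • o) + a) →
      ∀ R : ℝ, 3 ≤ R →
      (∀ i j, c i * (φ (x j + c j • o) + a) ≤ R * (c j * (φ (x i + c i • o) + a))) →
      (n : ℝ) * (R + 1) ^ d ≤ (3 * R - 1) ^ d ∧ (R = 3 → n ≤ 2 ^ d) := by
  intro d K hK hKc hKi o ho n c x hc hpair φ a hφ R hR hφR
  have h := Pool.Agent.Helper93.BP.boundR hK hKc hKi o ho c x hc hpair φ a hφ R hR hφR
  rw [finrank_euclideanSpace_fin] at h
  refine ⟨h, fun hR3 => ?_⟩
  rw [hR3] at h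
  norm_num at h
  have h8 : (8 : ℝ) ^ d = 2 ^ d * 4 ^ d := by
    rw [← mul_pow]
    norm_num
  rw [h8] at h
  have h4 : (0 : ℝ) < 4 ^ d := by positivity
  have := le_of_mul_le_mul_right h h4
  exact_mod_cast this

end Pool.Agent.Results.MP_c1e66d_co.SymmetricBoundedRatio
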